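import Mathlib

/-!
# The longest radial segment in the image of a normalised univalent function

For every `f` analytic in the unit disc with `f(0) = 0`, `f'(0) = 1` (univalent or not) there is a
direction `θ` such that `f(𝔻)` contains the radial segment `{t e^{iθ} : 0 ≤ t < 1}`. The identity
shows that `1` is best possible. Hence `λ = 1`.
-/

open Complex Metric Set Filter Topology

namespace Pool.Agent.Results.MP_d4bd36_an.RadialReach

/-- The class `S` of the normalised univalent functions on the unit disc. -/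
def IsS (f : ℂ → ℂ) : Prop :=
  DifferentiableOn ℂ f (ball 0 1) ∧ InjOn f (ball 0 1) ∧ f 0 = 0 ∧ deriv f 0 = 1

/-- The segment `{t e^{iθ} : 0 ≤ t < l}`. -/
def seg (θ l : ℝ) : Set ℂ := {w | ∃ t : ℝ, 0 ≤ t ∧ t < l ∧ w = (t : ℂ) * exp ((θ : ℂ) * I)}

/-- The radial reach `ρ(f)`: the supremum (possibly `∞`) of the `l > 0` such that the image of the
unit disc contains the segment `{t e^{iθ} : 0 ≤ t < l}` for some real `θ`. -/
noncomputable def reach (f : ℂ → ℂ) : EReal :=
  sSup {x : EReal | ∃ l : ℝ, x = (l : EReal) ∧ 0 < l ∧ ∃ θ : ℝ, seg θ l ⊆ f '' ball 0 1}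

/-- The number `λ`, the infimum of `ρ(f)` over the class `S`. -/
noncomputable def lam : EReal := sInf {x : EReal | ∃ f : ℂ → ℂ, IsS f ∧ x = reach f}

/-! ### Cauchy integrals -/

section Cauchy

variable {f : ℂ → ℂ} {r : ℝ}

/-- the coefficient of `u ^ n` in `f ^ k` -/
noncomputable def cf (f : ℂ → ℂ) (r : ℝ) (n k : ℕ) : ℂ :=
  (2 * Real.pi * I : ℂ)⁻¹ * ∮ u in C(0, r), (u ^ (n + 1))⁻¹ * f u ^ k

lemma cf_self (hf : DifferentiableOn ℂ f (ball 0 1)) (h0 : f 0 = 0) (h1 : deriv f 0 = 1)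
    (hr : 0 < r) (hr1 : r < 1) (n : ℕ) : cf f r n n = 1 := by
  have hg : DifferentiableOn ℂ (dslope f 0) (ball 0 1) :=
    (differentiableOn_dslope (ball_mem_nhds 0 one_pos)).2 hf
  have hfg : ∀ u : ℂ, f u = u * dslope f 0 u := by
    intro u
    have := sub_smul_dslope f 0 u
    simp only [sub_zero, smul_eq_mul, h0] at this
    exact this.symm
  have hsub : closedBall (0 : ℂ) r ⊆ ball 0 1 := closedBall_subset_ball hr1
  have hpow : DifferentiableOn ℂ (fun u => dslope f 0 u ^ n) (closedBall 0 r) :=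
    (hg.pow n).mono hsub
  have hc : DiffContOnCl ℂ (fun u => dslope f 0 u ^ n) (ball 0 r) :=
    DifferentiableOn.diffContOnCl (by rw [closure_ball _ hr.ne']; exact hpow)
  have key := hc.circleIntegral_sub_inv_smul (mem_ball_self hr)
  have hcongr : (∮ u in C(0, r), (u ^ (n + 1))⁻¹ * f u ^ n) =
      ∮ u in C(0, r), (u - 0)⁻¹ • (dslope f 0 u ^ n) := by
    refine circleIntegral.integral_congr hr.le ?_
    intro u hu
    have hu0 : u ≠ 0 := by
      rintro rfl
      simp at hu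
      exact hr.ne hu
    simp only [sub_zero, smul_eq_mul]
    rw [hfg u, mul_pow]
    field_simp
    ring
  rw [cf, hcongr, key, dslope_same, h1, one_pow, smul_eq_mul, mul_one]
  exact inv_mul_cancel₀ Complex.two_pi_I_ne_zero

lemma cauchy_eq (hf : DifferentiableOn ℂ f (ball 0 1)) (h0 : f 0 = 0)
    (hr : 0 < r) (hr1 : r < 1) (n : ℕ) (z : ℂ) (hz : ∀ u ∈ ball (0 : ℂ) 1, 1 - z * f u ≠ 0) :
    ∑ k ∈ Finset.range (n + 1), cf f r n k * z ^ k =
      (2 * Real.pi * I : ℂ)⁻¹ * ∮ u in C(0, r), (u ^ (n + 1))⁻¹ * (1 - z * f u)⁻¹ := by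
  have hg : DifferentiableOn ℂ (dslope f 0) (ball 0 1) :=
    (differentiableOn_dslope (ball_mem_nhds 0 one_pos)).2 hf
  have hfg : ∀ u : ℂ, f u = u * dslope f 0 u := by
    intro u
    have := sub_smul_dslope f 0 u
    simp only [sub_zero, smul_eq_mul, h0] at this
    exact this.symm
  have hsub : closedBall (0 : ℂ) r ⊆ ball 0 1 := closedBall_subset_ball hr1
  have hsph : sphere (0 : ℂ) r ⊆ ball 0 1 := sphere_subset_closedBall.trans hsub
  have hne : ∀ u ∈ sphere (0 : ℂ) r, u ≠ 0 := by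
    rintro u hu rfl
    simp at hu
    exact hr.ne hu
  have hcont1 : ContinuousOn (fun u : ℂ => (u ^ (n + 1))⁻¹) (sphere 0 r) :=
    ContinuousOn.inv₀ (by fun_prop) fun u hu => pow_ne_zero _ (hne u hu)
  have hcont2 : ContinuousOn f (sphere 0 r) := hf.continuousOn.mono hsph
  have hcont3 : ContinuousOn (fun u : ℂ => (1 - z * f u)⁻¹) (sphere 0 r) :=
    ContinuousOn.inv₀ (by fun_prop) fun u hu => hz u (hsph hu)
  -- the remainder
  have hrem : (∮ u in C(0, r), (u ^ (n + 1))⁻¹ * ((z * f u) ^ (n + 1) * (1 - z * f u)⁻¹)) = 0 := by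
    have h2 : DifferentiableOn ℂ
        (fun u => z ^ (n + 1) * dslope f 0 u ^ (n + 1) * (1 - z * f u)⁻¹) (ball 0 1) := by
      refine DifferentiableOn.mul ((hg.pow _).const_mul _) ?_
      refine DifferentiableOn.inv ?_ hz
      exact (differentiableOn_const (1 : ℂ)).sub (hf.const_mul z)
    have h3 : DiffContOnCl ℂ
        (fun u => z ^ (n + 1) * dslope f 0 u ^ (n + 1) * (1 - z * f u)⁻¹) (ball 0 r) :=
      DifferentiableOn.diffContOnCl (by rw [closure_ball _ hr.ne']; exact h2.mono hsub)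
    refine (circleIntegral.integral_congr hr.le ?_).trans (h3.circleIntegral_eq_zero hr.le)
    intro u hu
    have hu0 := hne u hu
    simp only
    rw [hfg u, mul_pow, mul_pow]
    field_simp
  have hgeo : ∀ u ∈ sphere (0 : ℂ) r, (u ^ (n + 1))⁻¹ * (1 - z * f u)⁻¹ =
      (∑ k ∈ Finset.range (n + 1), (u ^ (n + 1))⁻¹ * f u ^ k * z ^ k) +
        (u ^ (n + 1))⁻¹ * ((z * f u) ^ (n + 1) * (1 - z * f u)⁻¹) := by
    intro u hu
    have h1 := hz u (hsph hu)
    have h2 : (∑ k ∈ Finset.range (n + 1), (z * f u) ^ k) * (1 - z * f u) =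
        1 - (z * f u) ^ (n + 1) := geom_sum_mul_neg _ _
    have h3 : (∑ k ∈ Finset.range (n + 1), (z * f u) ^ k) =
        (1 - (z * f u) ^ (n + 1)) * (1 - z * f u)⁻¹ := by
      rw [← h2, mul_assoc, mul_inv_cancel₀ h1, mul_one]
    have h4 : (∑ k ∈ Finset.range (n + 1), (u ^ (n + 1))⁻¹ * f u ^ k * z ^ k) =
        (u ^ (n + 1))⁻¹ * ∑ k ∈ Finset.range (n + 1), (z * f u) ^ k := by
      rw [Finset.mul_sum]
      refine Finset.sum_congr rfl fun k _ => ?_
      rw [mul_pow]; ring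
    rw [h4, h3]; ring
  have hint : ∀ k, CircleIntegrable (fun u => (u ^ (n + 1))⁻¹ * f u ^ k * z ^ k) 0 r := fun k =>
    ContinuousOn.circleIntegrable hr.le ((hcont1.mul (hcont2.pow k)).mul continuousOn_const)
  have hint2 : CircleIntegrable
      (fun u => (u ^ (n + 1))⁻¹ * ((z * f u) ^ (n + 1) * (1 - z * f u)⁻¹)) 0 r :=
    ContinuousOn.circleIntegrable hr.le
      (hcont1.mul (((continuousOn_const.mul hcont2).pow _).mul hcont3))
  have hint3 : CircleIntegrable
      (fun u => ∑ k ∈ Finset.range (n + 1), (u ^ (n + 1))⁻¹ * f u ^ k * z ^ k) 0 r :=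
    ContinuousOn.circleIntegrable hr.le (continuousOn_finsetSum _ fun k _ =>
      (hcont1.mul (hcont2.pow k)).mul continuousOn_const)
  rw [circleIntegral.integral_congr hr.le hgeo, circleIntegral.integral_add hint3 hint2, hrem,
    add_zero, circleIntegral.integral_fun_sum (fun k _ => hint k), Finset.mul_sum]
  refine Finset.sum_congr rfl fun k _ => ?_
  rw [cf]
  have : (∮ u in C(0, r), (u ^ (n + 1))⁻¹ * f u ^ k * z ^ k) =
      (∮ u in C(0, r), (u ^ (n + 1))⁻¹ * f u ^ k) * z ^ k := by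
    have := circleIntegral.integral_const_mul (z ^ k) (fun u => (u ^ (n + 1))⁻¹ * f u ^ k) 0 r
    rw [mul_comm, ← this]
    refine circleIntegral.integral_congr hr.le fun u _ => ?_
    ring
  rw [this]; ring

/-- The bound for the monic polynomials at the inverses of omitted values. -/
lemma cauchy_bound (hf : DifferentiableOn ℂ f (ball 0 1)) (h0 : f 0 = 0)
    (hr : 0 < r) (hr1 : r < 1) (n : ℕ) (z : ℂ) (hz : ∀ u ∈ ball (0 : ℂ) 1, 1 - z * f u ≠ 0)
    (C : ℝ) (hC : ∀ u ∈ sphere (0 : ℂ) r, ‖(1 - z * f u)⁻¹‖ ≤ C) :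
    ‖∑ k ∈ Finset.range (n + 1), cf f r n k * z ^ k‖ ≤ C * (r ^ n)⁻¹ := by
  rw [cauchy_eq hf h0 hr hr1 n z hz]
  have := circleIntegral.norm_two_pi_i_inv_smul_integral_le_of_norm_le_const (c := 0) (R := r)
    (f := fun u => (u ^ (n + 1))⁻¹ * (1 - z * f u)⁻¹) (C := (r ^ (n + 1))⁻¹ * C) hr.le ?_
  · rw [smul_eq_mul] at this
    refine this.trans (le_of_eq ?_)
    field_simp
    ring
  · intro u hu
    have hu' : ‖u‖ = r := by simpa using hu
    rw [norm_mul, norm_inv, norm_pow, hu']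
    exact mul_le_mul_of_nonneg_left (hC u hu) (by positivity)

end Cauchy

/-! ### Distances -/

lemma norm_sub_sq' (a b θ φ : ℝ) :
    ‖(a : ℂ) * exp ((θ : ℂ) * I) - (b : ℂ) * exp ((φ : ℂ) * I)‖ ^ 2 =
      a ^ 2 + b ^ 2 - 2 * a * b * Real.cos (θ - φ) := by
  rw [Complex.sq_norm, Complex.normSq_apply]
  simp only [sub_re, sub_im, mul_re, mul_im, ofReal_re, ofReal_im, exp_ofReal_mul_I_re,
    exp_ofReal_mul_I_im, zero_mul, sub_zero, add_zero]
  rw [Real.cos_sub]
  nlinarith [Real.sin_sq_add_cos_sq θ, Real.sin_sq_add_cos_sq φ]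

lemma dist_grow (a b s θ φ : ℝ) (ha : 1 ≤ a) (hb : s ≤ b) (hs : 1 ≤ s) :
    Real.sqrt s * ‖exp ((θ : ℂ) * I) - exp ((φ : ℂ) * I)‖ ≤
      ‖(a : ℂ) * exp ((θ : ℂ) * I) - (b : ℂ) * exp ((φ : ℂ) * I)‖ := by
  have h1 := norm_sub_sq' a b θ φ
  have h2 := norm_sub_sq' 1 1 θ φ
  simp only [ofReal_one, one_mul, mul_one] at h2
  have hc : Real.cos (θ - φ) ≤ 1 := Real.cos_le_one _
  have hab : s ≤ a * b := by nlinarith
  refine (pow_le_pow_iff_left₀ (by positivity) (norm_nonneg _) two_ne_zero).1 ?_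
  rw [mul_pow, Real.sq_sqrt (by linarith), h1, h2]
  nlinarith [sq_nonneg (a - b), mul_nonneg (sub_nonneg.2 hc) (sub_nonneg.2 hab)]

/-- The product of the distances between roots of unity. -/
lemma prod_roots (n : ℕ) (α : ℝ) (i : ℕ) (hi : i ∈ Finset.range (n + 1)) :
    ∏ j ∈ (Finset.range (n + 1)).erase i,
      ‖exp (((α + 2 * Real.pi * i / (n + 1) : ℝ) : ℂ) * I) -
        exp (((α + 2 * Real.pi * j / (n + 1) : ℝ) : ℂ) * I)‖ = n + 1 := by
  set ω : ℂ := exp (2 * Real.pi * I / ((n + 1 : ℕ) : ℂ)) with hω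
  have hprim : IsPrimitiveRoot ω (n + 1) := Complex.isPrimitiveRoot_exp (n + 1) n.succ_ne_zero
  have hexp : ∀ j : ℕ, exp (((α + 2 * Real.pi * j / (n + 1) : ℝ) : ℂ) * I) =
      exp ((α : ℂ) * I) * ω ^ j := by
    intro j
    rw [hω, ← Complex.exp_nat_mul, ← Complex.exp_add]
    congr 1
    push_cast
    ring
  have hnod : Lagrange.nodal (Finset.range (n + 1)) (fun j : ℕ => ω ^ j) =
      (Polynomial.X ^ (n + 1) - Polynomial.C 1 : Polynomial ℂ) := by
    rw [X_pow_sub_C_eq_prod hprim n.zero_lt_succ (one_pow (n + 1)), Lagrange.nodal_eq]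
    simp
  have hder := Lagrange.eval_nodal_derivative_eval_node_eq (v := fun j : ℕ => ω ^ j) hi
  rw [hnod, Lagrange.eval_nodal] at hder
  have hnorm : ‖ω‖ = 1 := Complex.norm_eq_one_of_pow_eq_one hprim.pow_eq_one n.succ_ne_zero
  have : ∏ j ∈ (Finset.range (n + 1)).erase i, ‖ω ^ i - ω ^ j‖ = n + 1 := by
    rw [← norm_prod, ← hder]
    simp [hnorm]
    norm_cast
  refine Eq.trans ?_ this
  refine Finset.prod_congr rfl fun j _ => ?_
  rw [hexp, hexp, ← mul_sub, norm_mul, Complex.norm_exp_ofReal_mul_I, one_mul]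

/-! ### The main argument -/

/-- The directions in which `U` is left before the time `q`. -/
lemma isClosed_blocked (U : Set ℂ) (hU : IsOpen U) (q : ℝ) :
    IsClosed {θ : ℝ | ∃ t ∈ Icc (0 : ℝ) q, (t : ℂ) * exp (((-θ : ℝ) : ℂ) * I) ∉ U} := by
  have h1 : IsClosed {p : Icc (0 : ℝ) q × ℝ | ((p.1 : ℝ) : ℂ) * exp (((-p.2 : ℝ) : ℂ) * I) ∈ Uᶜ} :=
    hU.isClosed_compl.preimage (by fun_prop)
  have h2 := isClosedMap_snd_of_compactSpace _ h1
  convert h2 using 1
  ext θ
  simp only [mem_ofPred_eq, mem_image, Prod.exists, Subtype.exists]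
  constructor
  · rintro ⟨t, ht, h⟩
    exact ⟨t, ht, θ, h, rfl⟩
  · rintro ⟨t, ht, θ', h, rfl⟩
    exact ⟨t, ht, h⟩

lemma exists_bound {f : ℂ → ℂ} (hf : DifferentiableOn ℂ f (ball 0 1))
    (hU : IsOpen (f '' ball 0 1)) {r : ℝ} (hr1 : r < 1) :
    ∃ C : ℝ, ∀ w : ℂ, w ∉ f '' ball 0 1 → ‖w‖ ≤ 1 → w ≠ 0 → ∀ u ∈ sphere (0 : ℂ) r,
      ‖(1 - w⁻¹ * f u)⁻¹‖ ≤ C := by
  have hsub : closedBall (0 : ℂ) r ⊆ ball 0 1 := closedBall_subset_ball hr1
  have hK : IsCompact (f '' closedBall 0 r) :=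
    (isCompact_closedBall 0 r).image_of_continuousOn (hf.continuousOn.mono hsub)
  obtain ⟨δ, hδ, hδU⟩ := hK.exists_thickening_subset_open hU (image_mono hsub)
  refine ⟨δ⁻¹, fun w hw hw1 hw0 u hu => ?_⟩
  have hd : δ ≤ ‖w - f u‖ := by
    by_contra hlt
    push Not at hlt
    refine hw (hδU ?_)
    rw [mem_thickening_iff]
    exact ⟨f u, mem_image_of_mem f (sphere_subset_closedBall hu), by rwa [dist_eq_norm]⟩
  have hne : w - f u ≠ 0 := by
    intro h
    rw [h, norm_zero] at hd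
    linarith
  have : (1 - w⁻¹ * f u)⁻¹ = w * (w - f u)⁻¹ := by
    have h1 : 1 - w⁻¹ * f u = w⁻¹ * (w - f u) := by
      rw [mul_sub, inv_mul_cancel₀ hw0]
    rw [h1, mul_inv, inv_inv]
  rw [this, norm_mul, norm_inv]
  calc ‖w‖ * ‖w - f u‖⁻¹ ≤ 1 * δ⁻¹ :=
        mul_le_mul hw1 (inv_anti₀ hδ hd) (by positivity) zero_le_one
    _ = δ⁻¹ := one_mul _

/-- **Main lemma.** Every `f` analytic on the unit disc with `f(0) = 0` and `f'(0) = 1` has a radial
segment of length `1` in its image. -/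
theorem exists_segment (f : ℂ → ℂ) (hf : DifferentiableOn ℂ f (ball 0 1)) (h0 : f 0 = 0)
    (h1 : deriv f 0 = 1) : ∃ θ : ℝ, seg θ 1 ⊆ f '' ball 0 1 := by
  classical
  by_contra hcon
  push Not at hcon
  set U : Set ℂ := f '' ball 0 1 with hUdef
  have h0U : (0 : ℂ) ∈ U := ⟨0, mem_ball_self one_pos, h0⟩
  -- the image is open
  have hU : IsOpen U := by
    have han : AnalyticOnNhd ℂ f (ball 0 1) := hf.analyticOnNhd isOpen_ball
    rcases han.is_constant_or_isOpen (convex_ball (0 : ℂ) 1).isPreconnected with ⟨w, hw⟩ | h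
    · exfalso
      have : f =ᶠ[𝓝 0] fun _ => w := by
        filter_upwards [ball_mem_nhds (0 : ℂ) one_pos] with z hz using hw z hz
      rw [this.deriv_eq, deriv_const] at h1
      exact zero_ne_one h1
    · exact h _ Subset.rfl isOpen_ball
  have hblock : ∀ θ : ℝ, ∃ t : ℝ, 0 < t ∧ t < 1 ∧ (t : ℂ) * exp (((-θ : ℝ) : ℂ) * I) ∉ U := by
    intro θ
    obtain ⟨w, hw, hwU⟩ := not_subset.1 (hcon (-θ))
    obtain ⟨t, ht0, ht1, rfl⟩ := hw
    refine ⟨t, lt_of_le_of_ne ht0 ?_, ht1, hwU⟩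
    rintro rfl
    simp [h0U] at hwU
  -- Baire category
  obtain ⟨m, hm⟩ : ∃ m : ℕ, (interior {θ : ℝ | ∃ t ∈ Icc (0 : ℝ) (1 - 1 / ((m : ℝ) + 1)),
      (t : ℂ) * exp (((-θ : ℝ) : ℂ) * I) ∉ U}).Nonempty := by
    refine nonempty_interior_of_iUnion_of_closed (fun m => isClosed_blocked U hU _) ?_
    refine eq_univ_of_forall fun θ => mem_iUnion.2 ?_
    obtain ⟨t, ht0, ht1, htU⟩ := hblock θ
    obtain ⟨m, hm⟩ := exists_nat_one_div_lt (sub_pos.2 ht1)
    exact ⟨m, t, ⟨ht0.le, by linarith⟩, htU⟩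
  set q : ℝ := 1 - 1 / ((m : ℝ) + 1) with hq
  have hq1 : q < 1 := by
    have : 0 < 1 / ((m : ℝ) + 1) := by positivity
    linarith
  obtain ⟨α, hα⟩ := hm
  obtain ⟨ε, hε, hεs⟩ := Metric.isOpen_iff.1 isOpen_interior α hα
  obtain ⟨M, hM⟩ := exists_nat_gt (2 * Real.pi / ε)
  have hM0 : 0 < (M : ℝ) := lt_trans (by positivity) hM
  have hMpos : 0 < M := by exact_mod_cast hM0
  have harc : ∀ θ : ℝ, α ≤ θ → θ ≤ α + 2 * Real.pi / M →
      ∃ t ∈ Icc (0 : ℝ) q, (t : ℂ) * exp (((-θ : ℝ) : ℂ) * I) ∉ U := by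
    intro θ hθ1 hθ2
    have hmem : θ ∈ ball α ε := by
      rw [mem_ball, Real.dist_eq, abs_of_nonneg (by linarith)]
      have : 2 * Real.pi / M < ε := by
        rw [div_lt_iff₀ hM0]
        rw [div_lt_iff₀ hε] at hM
        linarith
      linarith
    exact interior_subset (s := {θ : ℝ | ∃ t ∈ Icc (0 : ℝ) q,
      (t : ℂ) * exp (((-θ : ℝ) : ℂ) * I) ∉ U}) (hεs hmem)
  have hq0 : 0 < q := by
    obtain ⟨t, ht, htU⟩ := harc α le_rfl (by have : 0 ≤ 2 * Real.pi / M := by positivity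
                                             linarith)
    rcases ht.1.lt_or_eq with h | h
    · exact lt_of_lt_of_le h ht.2
    · exfalso
      rw [← h] at htU
      simp [h0U] at htU
  set s : ℝ := q⁻¹ with hs
  have hs1 : 1 < s := (one_lt_inv₀ hq0).2 hq1
  -- selection of blocking points
  have hsel : ∀ θ : ℝ, ∃ a : ℝ, 1 ≤ a ∧ ((a⁻¹ : ℝ) : ℂ) * exp (((-θ : ℝ) : ℂ) * I) ∉ U ∧
      (α ≤ θ → θ ≤ α + 2 * Real.pi / M → s ≤ a) := by
    intro θ
    by_cases hθ : α ≤ θ ∧ θ ≤ α + 2 * Real.pi / M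
    · obtain ⟨t, ht, htU⟩ := harc θ hθ.1 hθ.2
      have ht0 : 0 < t := by
        rcases ht.1.lt_or_eq with h | h
        · exact h
        · exfalso
          rw [← h] at htU
          simp [h0U] at htU
      refine ⟨t⁻¹, ?_, by rwa [inv_inv], fun _ _ => inv_anti₀ ht0 ht.2⟩
      exact (one_le_inv₀ ht0).2 (ht.2.trans hq1.le)
    · obtain ⟨t, ht0, ht1, htU⟩ := hblock θ
      refine ⟨t⁻¹, (one_le_inv₀ ht0).2 ht1.le, by rwa [inv_inv], fun h1 h2 => absurd ⟨h1, h2⟩ hθ⟩
  choose a ha1 haU has using hsel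
  -- the radius
  obtain ⟨r, hr0, hr1, hrM⟩ : ∃ r : ℝ, 0 < r ∧ r < 1 ∧ 1 < r ^ M * Real.sqrt s := by
    have hcont : Continuous fun r : ℝ => r ^ M * Real.sqrt s := by fun_prop
    have h2 : 1 < Real.sqrt s := by
      rw [Real.lt_sqrt zero_le_one]; simpa using hs1
    have h3 : ∀ᶠ r : ℝ in 𝓝 1, 1 < r ^ M * Real.sqrt s :=
      hcont.continuousAt.eventually (lt_mem_nhds (by simpa using h2))
    have h4 : ∀ᶠ r : ℝ in 𝓝[<] 1, 1 < r ^ M * Real.sqrt s := h3.filter_mono nhdsWithin_le_nhds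
    have h5 : ∀ᶠ r : ℝ in 𝓝[<] 1, 0 < r :=
      (lt_mem_nhds (zero_lt_one)).filter_mono nhdsWithin_le_nhds
    obtain ⟨r, hr⟩ := (h4.and (h5.and self_mem_nhdsWithin)).exists
    exact ⟨r, hr.2.1, hr.2.2, hr.1⟩
  obtain ⟨C, hC⟩ := exists_bound hf hU hr1
  -- the estimate for `M * N` directions
  have hest : ∀ N : ℕ, 0 < N → (r ^ M * Real.sqrt s) ^ N ≤ C * Real.sqrt s := by
    intro N hN
    have hMN : 0 < M * N := Nat.mul_pos hMpos hN
    obtain ⟨n, hn⟩ : ∃ n, M * N = n + 1 := ⟨M * N - 1, by omega⟩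
    set θ : ℕ → ℝ := fun j => α + 2 * Real.pi * j / (n + 1) with hθ
    set z : ℕ → ℂ := fun j => (a (θ j) : ℂ) * exp ((θ j : ℂ) * I) with hz
    have hn1 : (0 : ℝ) < n + 1 := by positivity
    have hnMN : (n : ℝ) + 1 = M * N := by exact_mod_cast hn.symm
    have hNr : (0 : ℝ) < N := by exact_mod_cast hN
    -- nodes in the arc
    have harcn : ∀ j : ℕ, j < N → s ≤ a (θ j) := by
      intro j hj
      have hj' : (j : ℝ) ≤ N := by exact_mod_cast hj.le
      refine has (θ j) ?_ ?_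
      · have : 0 ≤ 2 * Real.pi * j / ((n : ℝ) + 1) := by positivity
        simp only [hθ]; linarith
      · have : 2 * Real.pi * j / ((n : ℝ) + 1) ≤ 2 * Real.pi / M := by
          rw [hnMN, div_le_div_iff₀ (by positivity) hM0]
          have := mul_le_mul_of_nonneg_left hj' (show 0 ≤ 2 * Real.pi * M by positivity)
          nlinarith
        simp only [hθ]; linarith
    have hg : ∀ i j : ℕ, (if j < N then Real.sqrt s else 1) *
        ‖exp ((θ i : ℂ) * I) - exp ((θ j : ℂ) * I)‖ ≤ ‖z i - z j‖ := by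
      intro i j
      split_ifs with hj
      · exact dist_grow _ _ s _ _ (ha1 _) (harcn j hj) hs1.le
      · have := dist_grow (a (θ i)) (a (θ j)) 1 (θ i) (θ j) (ha1 _) (ha1 _) le_rfl
        rwa [Real.sqrt_one] at this
    have hprod : ∀ i ∈ Finset.range (n + 1), (n + 1 : ℝ) * Real.sqrt s ^ (N - 1) ≤
        ∏ j ∈ (Finset.range (n + 1)).erase i, ‖z i - z j‖ := by
      intro i hi
      have e1 : ∏ j ∈ (Finset.range (n + 1)).erase i, (if j < N then Real.sqrt s else 1) *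
          ‖exp ((θ i : ℂ) * I) - exp ((θ j : ℂ) * I)‖ ≤
          ∏ j ∈ (Finset.range (n + 1)).erase i, ‖z i - z j‖ :=
        Finset.prod_le_prod (fun j _ => by positivity) fun j _ => hg i j
      refine le_trans ?_ e1
      rw [Finset.prod_mul_distrib, prod_roots n α i hi, mul_comm]
      refine mul_le_mul_of_nonneg_right ?_ hn1.le
      rw [Finset.prod_ite, Finset.prod_const, Finset.prod_const_one, mul_one]
      have h2 : 1 ≤ Real.sqrt s := by
        rw [Real.one_le_sqrt]; exact hs1.le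
      refine pow_le_pow_right₀ h2 ?_
      have hsub : (Finset.range N).erase i ⊆
          ((Finset.range (n + 1)).erase i).filter (fun j => j < N) := by
        intro j hj
        simp only [Finset.mem_erase, Finset.mem_range, Finset.mem_filter] at hj ⊢
        refine ⟨⟨hj.1, ?_⟩, hj.2⟩
        have : N ≤ M * N := Nat.le_mul_of_pos_left N hMpos
        omega
      have h3 := Finset.card_le_card hsub
      have h4 : N - 1 ≤ ((Finset.range N).erase i).card := by
        have := Finset.pred_card_le_card_erase (a := i) (s := Finset.range N)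
        simpa using this
      omega
    have hs0 : 0 < Real.sqrt s := Real.sqrt_pos.2 (by linarith)
    have hinj : Set.InjOn z (Finset.range (n + 1) : Set ℕ) := by
      intro i hi j hj hij
      by_contra hne
      have h5 := hprod i (by simpa using hi)
      have h6 : ∏ j ∈ (Finset.range (n + 1)).erase i, ‖z i - z j‖ = 0 :=
        Finset.prod_eq_zero (i := j) (by
          simp only [Finset.mem_erase]
          exact ⟨fun h => hne h.symm, by simpa using hj⟩) (by rw [hij, sub_self, norm_zero])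
      rw [h6] at h5
      have : 0 < (n + 1 : ℝ) * Real.sqrt s ^ (N - 1) := by positivity
      linarith
    -- interpolation
    set P : Polynomial ℂ := ∑ k ∈ Finset.range (n + 1), Polynomial.monomial k (cf f r n k) with hP
    have hPdeg : P.degree < ((Finset.range (n + 1)).card : ℕ) := by
      rw [Finset.card_range]
      refine (Polynomial.degree_sum_le _ _).trans_lt ?_
      rw [Finset.sup_lt_iff (by exact WithBot.bot_lt_coe _)]
      intro k hk
      refine (Polynomial.degree_monomial_le k _).trans_lt ?_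
      exact_mod_cast Finset.mem_range.1 hk
    have hPcoeff : P.coeff ((Finset.range (n + 1)).card - 1) = 1 := by
      rw [Finset.card_range, Nat.add_sub_cancel, hP, Polynomial.finsetSum_coeff,
        Finset.sum_eq_single n]
      · rw [Polynomial.coeff_monomial_same]
        exact cf_self hf h0 h1 hr0 hr1 n
      · intro k _ hk
        rw [Polynomial.coeff_monomial, if_neg hk]
      · intro h
        exact absurd (Finset.mem_range.2 n.lt_succ_self) h
    have hPeval : ∀ x : ℂ, P.eval x = ∑ k ∈ Finset.range (n + 1), cf f r n k * x ^ k := by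
      intro x
      rw [hP, Polynomial.eval_finsetSum]
      exact Finset.sum_congr rfl fun k _ => Polynomial.eval_monomial
    have hzw : ∀ j, z j = (((a (θ j))⁻¹ : ℝ) * exp (((-θ j : ℝ) : ℂ) * I))⁻¹ := by
      intro j
      simp only [hz]
      rw [mul_inv, ← Complex.exp_neg]
      push_cast
      rw [inv_inv]
      congr 2
      ring
    have hbound : ∀ j, ‖P.eval (z j)‖ ≤ C * (r ^ n)⁻¹ := by
      intro j
      set w : ℂ := ((a (θ j))⁻¹ : ℝ) * exp (((-θ j : ℝ) : ℂ) * I) with hw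
      have ha0 : 0 < a (θ j) := lt_of_lt_of_le one_pos (ha1 _)
      have hw0 : w ≠ 0 := by
        rw [hw]
        exact mul_ne_zero (by exact_mod_cast (inv_pos.2 ha0).ne') (Complex.exp_ne_zero _)
      have hw1 : ‖w‖ ≤ 1 := by
        rw [hw, norm_mul, Complex.norm_exp_ofReal_mul_I, mul_one, Complex.norm_real,
          Real.norm_of_nonneg (inv_pos.2 ha0).le]
        exact inv_le_one_of_one_le₀ (ha1 _)
      rw [hPeval, hzw j]
      refine cauchy_bound hf h0 hr0 hr1 n _ ?_ C ?_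
      · intro u hu h
        refine haU (θ j) ⟨u, hu, ?_⟩
        have : w⁻¹ * f u = 1 := (sub_eq_zero.1 h).symm
        rw [← hw]
        field_simp at this
        exact this
      · intro u hu
        exact hC w (haU (θ j)) hw1 hw0 u hu
    have hlag := Lagrange.coeff_eq_sum hinj hPdeg
    rw [hPcoeff] at hlag
    have hC0 : 0 ≤ C * (r ^ n)⁻¹ := (norm_nonneg _).trans (hbound 0)
    have hfin : (1 : ℝ) ≤ ∑ i ∈ Finset.range (n + 1),
        C * (r ^ n)⁻¹ / ((n + 1 : ℝ) * Real.sqrt s ^ (N - 1)) := by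
      calc (1 : ℝ) = ‖(1 : ℂ)‖ := by simp
        _ = ‖∑ i ∈ Finset.range (n + 1), P.eval (z i) /
            ∏ j ∈ (Finset.range (n + 1)).erase i, (z i - z j)‖ := by rw [← hlag]
        _ ≤ ∑ i ∈ Finset.range (n + 1), ‖P.eval (z i) /
            ∏ j ∈ (Finset.range (n + 1)).erase i, (z i - z j)‖ := norm_sum_le _ _
        _ ≤ _ := by
            refine Finset.sum_le_sum fun i hi => ?_
            rw [norm_div, norm_prod]
            exact div_le_div₀ hC0 (hbound i) (by positivity) (hprod i hi)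
    rw [Finset.sum_const, Finset.card_range, nsmul_eq_mul] at hfin
    have h7 : ((n + 1 : ℕ) : ℝ) * (C * (r ^ n)⁻¹ / ((n + 1 : ℝ) * Real.sqrt s ^ (N - 1))) =
        C / (r ^ n * Real.sqrt s ^ (N - 1)) := by
      push_cast
      field_simp
    rw [h7, le_div_iff₀ (by positivity), one_mul] at hfin
    calc (r ^ M * Real.sqrt s) ^ N = r ^ (n + 1) * Real.sqrt s ^ N := by
          rw [mul_pow, ← pow_mul, hn]
      _ = r * (r ^ n * Real.sqrt s ^ (N - 1)) * Real.sqrt s := by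
          obtain ⟨k, rfl⟩ : ∃ k, N = k + 1 := ⟨N - 1, by omega⟩
          rw [Nat.add_sub_cancel]
          ring
      _ ≤ 1 * (r ^ n * Real.sqrt s ^ (N - 1)) * Real.sqrt s := by
          gcongr
      _ ≤ C * Real.sqrt s := by
          rw [one_mul]
          gcongr
  obtain ⟨N, hN⟩ := ((tendsto_pow_atTop_atTop_of_one_lt hrM).eventually_gt_atTop
    (C * Real.sqrt s)).and (eventually_gt_atTop 0) |>.exists
  exact absurd (hest N hN.2) (not_le.2 hN.1)

lemma one_le_reach {f : ℂ → ℂ} (h : ∃ θ : ℝ, seg θ 1 ⊆ f '' ball 0 1) : 1 ≤ reach f :=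
  le_sSup ⟨1, by simp, one_pos, h⟩

lemma isS_id : IsS id := by
  refine ⟨differentiableOn_id, injOn_id _, rfl, deriv_id 0⟩

lemma reach_id : reach id = 1 := by
  refine le_antisymm (sSup_le ?_) ?_
  · rintro x ⟨l, rfl, _, θ, hθ⟩
    by_contra hlt
    push Not at hlt
    have hl1 : (1 : ℝ) < l := by exact_mod_cast hlt
    have hmem : (1 : ℝ) * exp ((θ : ℂ) * I) ∈ id '' ball (0 : ℂ) 1 :=
      hθ ⟨1, zero_le_one, hl1, rfl⟩
    rw [image_id, mem_ball_zero_iff, ofReal_one, one_mul, Complex.norm_exp_ofReal_mul_I] at hmem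
    exact lt_irrefl _ hmem
  · exact one_le_reach (exists_segment id differentiableOn_id rfl (deriv_id 0))

/-- **MacGregor's question.** `λ = 1`. The infimum is attained (by the identity). Moreover for every
`f` analytic on the unit disc with `f(0) = 0`, `f'(0) = 1`, univalent or not, the image of the disc
contains a radial segment `{t e^{iθ} : 0 ≤ t < 1}` of length `1`. -/
theorem result :
    lam = 1 ∧ (∃ f : ℂ → ℂ, IsS f ∧ reach f = 1) ∧
    ∀ f : ℂ → ℂ, DifferentiableOn ℂ f (ball 0 1) → f 0 = 0 → deriv f 0 = 1 →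
      ∃ θ : ℝ, seg θ 1 ⊆ f '' ball 0 1 := by
  refine ⟨le_antisymm ?_ ?_, ⟨id, isS_id, reach_id⟩, exists_segment⟩
  · exact (sInf_le (show reach id ∈ {x : EReal | ∃ f : ℂ → ℂ, IsS f ∧ x = reach f} from
      ⟨id, isS_id, rfl⟩)).trans_eq reach_id
  · refine le_sInf ?_
    rintro x ⟨f, hf, rfl⟩
    exact one_le_reach (exists_segment f hf.1 hf.2.2.1 hf.2.2.2)

end Pool.Agent.Results.MP_d4bd36_an.RadialReach
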